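import Pool.Agent.H768R3.WreathB
import Pool.Agent.H768R3.A4

set_option autoImplicit false

namespace Pool.Agent.Results.MP_a6eddd_al.EveryBaseSize

/-- For every `b ≥ 2` there is a finite primitive permutation group `G` with base size exactly `b`
and two distinct points `α`, `β` such that no point `γ` lies with `α` in a base of size `b` and with
`β` in a base of size `b`. The group is the product action group `(5^3 : A₄) wr S_r`, where `r` is
the number of regular orbits of `A₄` on `(𝔽₅^3)^(b-1)`. -/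
theorem result : ∀ b : ℕ, 2 ≤ b →
    ∃ (Ω : Type) (_ : Finite Ω) (G : Subgroup (Equiv.Perm Ω)),
      MulAction.IsPreprimitive G Ω ∧
      (∃ B : Finset Ω, B.card = b ∧ ∀ g ∈ G, (∀ x ∈ B, g x = x) → g = 1) ∧
      (∀ B : Finset Ω, (∀ g ∈ G, (∀ x ∈ B, g x = x) → g = 1) → b ≤ B.card) ∧
      ∃ α β : Ω, α ≠ β ∧ ¬ ∃ γ : Ω,
        (γ ≠ α ∧ ∃ B : Finset Ω, B.card = b ∧ α ∈ B ∧ γ ∈ B ∧
            ∀ g ∈ G, (∀ x ∈ B, g x = x) → g = 1) ∧
        (γ ≠ β ∧ ∃ B : Finset Ω, B.card = b ∧ β ∈ B ∧ γ ∈ B ∧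
            ∀ g ∈ G, (∀ x ∈ B, g x = x) → g = 1) := by
  intro b hb
  obtain ⟨m, rfl⟩ := Nat.exists_eq_add_of_le' hb
  exact Pool.Agent.H768R3.Wreath.mainB (H := Pool.Agent.H768R3.A4.A) (V := Pool.Agent.H768R3.A4.V) m
    Pool.Agent.H768R3.A4.irr Pool.Agent.H768R3.A4.moved Pool.Agent.H768R3.A4.x₀
    Pool.Agent.H768R3.A4.reg_x₀ Pool.Agent.H768R3.A4.v₀ Pool.Agent.H768R3.A4.notMem_v₀

end Pool.Agent.Results.MP_a6eddd_al.EveryBaseSize
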